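import Pool.Agent.Run7.h130.PL.Sys
import Pool.Agent.R956.Z2

/-!
# Submultiplicative sequences with the rates of the walks on `ℤ³`
-/

set_option autoImplicit false

namespace Run7.h130.PL.Z3

open Filter Topology Set Run7.h130.PL
open Pool.Agent.R956.Z2 (Hy y y_two y_one y_eq y_nonneg y_small y_all P P_pos log_P rpow_le_of
  log5_nonneg)

variable {c : ℕ → ℝ} {μ : ℝ}

/-- the normalised numbers -/
noncomputable def rr (c : ℕ → ℝ) (μ : ℝ) (n : ℕ) : ℝ := c n / μ ^ n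

theorem rr_pos (h : Hy c μ) (n : ℕ) : 0 < rr c μ n := div_pos (h.pos n) (pow_pos h.mu n)

theorem log_rr (n : ℕ) : Real.log (rr c μ n) = y c μ n := rfl

theorem rate_tend {ε : ℝ} (hε3 : ε < 1 / 3) (K : ℝ) :
    Tendsto (fun n : ℕ => K * (n : ℝ) ^ (-(1 / 3 : ℝ) + ε)) atTop (𝓝 0) := by
  have h1 := (tendsto_rpow_neg_atTop (show (0 : ℝ) < 1 / 3 - ε by linarith)).comp
    (tendsto_natCast_atTop_atTop (R := ℝ))
  have h2 := h1.const_mul K
  rw [mul_zero] at h2
  refine h2.congr fun n => ?_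
  simp only [Function.comp_apply]
  rw [show -(1 / 3 - ε) = -(1 / 3 : ℝ) + ε by ring]

theorem sys (h : Hy c μ) {ε : ℝ} (hε : 0 < ε) (hε3 : ε < 1 / 3) : ∃ K M : ℝ, 0 ≤ K ∧
    Sys (rr c μ) (fun n => K * (n : ℝ) ^ (-(1 / 3 : ℝ) + ε)) M := by
  obtain ⟨K, hK0, hK⟩ := y_two h hε
  have hl := log5_nonneg h
  have htwo : ∀ n : ℕ, 1 ≤ n → |y c μ (n + 2) - y c μ n| ≤ K * (n : ℝ) ^ (-(1 / 3 : ℝ) + ε) := by
    intro n hn
    have h1 := hK n hn
    have h2 := rpow_le_of hn (show -(2 / 5 : ℝ) + ε ≤ -(1 / 3 : ℝ) + ε by linarith)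
    have h3 := mul_le_mul_of_nonneg_left h2 hK0
    rw [abs_le]
    constructor <;> linarith [h1.1, h1.2]
  refine ⟨K, K + Real.log (5 / μ), hK0, fun n => rr_pos h n, ?_, rate_tend hε3 K, ?_⟩
  · filter_upwards [eventually_ge_atTop 1] with n hn
    exact htwo n hn
  · filter_upwards [eventually_ge_atTop 1] with n hn
    show |y c μ (n + 1) - y c μ n| ≤ _
    have h1 := (abs_le.1 (htwo n hn)).1
    have h2 := y_one h hn
    have h3 := y_one h (show 1 ≤ n + 1 by omega)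
    have h4 : (n : ℝ) ^ (-(1 / 3 : ℝ) + ε) ≤ 1 := by
      have h6 := rpow_le_of hn (show -(1 / 3 : ℝ) + ε ≤ 0 by linarith)
      rwa [Real.rpow_zero] at h6
    have h5 : K * (n : ℝ) ^ (-(1 / 3 : ℝ) + ε) ≤ K := by
      have := mul_le_mul_of_nonneg_left h4 hK0
      linarith
    rw [show n + 1 + 1 = n + 2 by ring] at h3
    rw [abs_le]
    constructor <;> linarith

theorem log_amp (h : Hy c μ) (β : ℝ) {n : ℕ} (hn : 1 ≤ n) :
    Real.log (rr c μ n / (n : ℝ) ^ β) = y c μ n - β * Real.log n := by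
  have hn' : (0 : ℝ) < n := by exact_mod_cast hn
  have h1 := rr_pos h n
  rw [Real.log_div h1.ne' (Real.rpow_pos_of_pos hn' β).ne', Real.log_rpow hn']
  rfl

theorem log_PP (h : Hy c μ) (β : ℝ) {n : ℕ} (hn : 1 ≤ n) :
    Real.log (P c n n * (n : ℝ) ^ β) = y c μ (2 * n) - 2 * y c μ n + β * Real.log n := by
  have hn' : (0 : ℝ) < n := by exact_mod_cast hn
  rw [Real.log_mul (P_pos h n n).ne' (Real.rpow_pos_of_pos hn' β).ne', log_P h,
    Real.log_rpow hn', two_mul n]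
  ring

theorem log_two_div (β : ℝ) {A : ℝ} (hA : 0 < A) :
    Real.log (2 ^ β / A) = β * Real.log 2 - Real.log A := by
  rw [Real.log_div (Real.rpow_pos_of_pos (by norm_num) β).ne' hA.ne', Real.log_rpow (by norm_num)]

theorem amp_ev (h : Hy c μ) (β : ℝ) : ∀ᶠ n : ℕ in atTop, 0 < rr c μ n / (n : ℝ) ^ β := by
  filter_upwards [eventually_ge_atTop 1] with n hn
  have hn' : (0 : ℝ) < n := by exact_mod_cast hn
  have := rr_pos h n
  positivity

theorem PP_ev (h : Hy c μ) (β : ℝ) : ∀ᶠ n : ℕ in atTop, 0 < P c n n * (n : ℝ) ^ β := by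
  filter_upwards [eventually_ge_atTop 1] with n hn
  have hn' : (0 : ℝ) < n := by exact_mod_cast hn
  have := P_pos h n n
  positivity

/-- from `P n n` along a set closed under doubling to the amplitude along this set -/
theorem amp_of_PP (h : Hy c μ) (β : ℝ) {A : ℝ} (hA : 0 < A) {S : Set ℕ}
    (hS : ∀ n ∈ S, 2 * n ∈ S)
    (h1 : Tendsto (fun n : ℕ => P c n n * (n : ℝ) ^ β) (atTop ⊓ 𝓟 S) (𝓝 (2 ^ β / A))) :
    Tendsto (fun n : ℕ => y c μ n - β * Real.log n) (atTop ⊓ 𝓟 S) (𝓝 (Real.log A)) := by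
  have hpos : (0 : ℝ) < 2 ^ β / A := div_pos (Real.rpow_pos_of_pos (by norm_num) β) hA
  have h2 := (tendsto_log_iff ((PP_ev h β).filter_mono inf_le_left) hpos).1 h1
  rw [log_two_div β hA] at h2
  have h3 : Tendsto (fun n : ℕ => y c μ (2 * n) - 2 * y c μ n + β * Real.log n) (atTop ⊓ 𝓟 S)
      (𝓝 (β * Real.log 2 - Real.log A)) := by
    refine h2.congr' ?_
    filter_upwards [(eventually_ge_atTop 1).filter_mono inf_le_left] with n hn
    exact log_PP h β hn
  have h4 := of_double (y_small h) hS h3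
  rwa [show β * Real.log 2 - (β * Real.log 2 - Real.log A) = Real.log A by ring] at h4

theorem PP_of_amp (h : Hy c μ) (β : ℝ) {A : ℝ} (hA : 0 < A)
    (h1 : Tendsto (fun n : ℕ => rr c μ n / (n : ℝ) ^ β) atTop (𝓝 A)) :
    Tendsto (fun n : ℕ => P c n n * (n : ℝ) ^ β) atTop (𝓝 (2 ^ β / A)) := by
  have hpos : (0 : ℝ) < 2 ^ β / A := div_pos (Real.rpow_pos_of_pos (by norm_num) β) hA
  have h2 := (tendsto_log_iff (amp_ev h β) hA).1 h1
  have h3 : Tendsto (fun n : ℕ => y c μ n - β * Real.log n) atTop (𝓝 (Real.log A)) := by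
    refine h2.congr' ?_
    filter_upwards [eventually_ge_atTop 1] with n hn
    exact log_amp h β hn
  rw [tendsto_log_iff (PP_ev h β) hpos, log_two_div β hA]
  refine (to_double h3).congr' ?_
  filter_upwards [eventually_ge_atTop 1] with n hn
  exact (log_PP h β hn).symm

theorem amp_tend_of (h : Hy c μ) (β : ℝ) {A : ℝ} (hA : 0 < A)
    (h1 : Tendsto (fun n : ℕ => y c μ n - β * Real.log n) atTop (𝓝 (Real.log A))) :
    Tendsto (fun n : ℕ => rr c μ n / (n : ℝ) ^ β) atTop (𝓝 A) := by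
  rw [tendsto_log_iff (amp_ev h β) hA]
  refine h1.congr' ?_
  filter_upwards [eventually_ge_atTop 1] with n hn
  exact (log_amp h β hn).symm

/-- **first equivalence** -/
theorem iff_double (h : Hy c μ) (β : ℝ) {A : ℝ} (hA : 0 < A) :
    Tendsto (fun n : ℕ => rr c μ n / (n : ℝ) ^ β) atTop (𝓝 A) ↔
      Tendsto (fun n : ℕ => P c n n * (n : ℝ) ^ β) atTop (𝓝 (2 ^ β / A)) := by
  refine ⟨PP_of_amp h β hA, fun h1 => ?_⟩
  have h2 := amp_of_PP h β hA (S := Set.univ) (fun _ _ => trivial)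
    (by rwa [principal_univ, inf_top_eq])
  rw [principal_univ, inf_top_eq] at h2
  exact amp_tend_of h β hA h2

/-- the set `S` contains a number of the parity of `n` in `[n, n + n ^ (1/3 - ε)]`, for all large
`n` -/
def Gaps (S : Set ℕ) (ε : ℝ) : Prop :=
  ∀ᶠ n : ℕ in atTop, ∃ m ∈ S, n ≤ m ∧ m % 2 = n % 2 ∧ (m : ℝ) ≤ n + (n : ℝ) ^ (1 / 3 - ε)

/-- **sparse lengths** -/
theorem of_sparse (h : Hy c μ) (β : ℝ) {A : ℝ} (hA : 0 < A) {ε : ℝ} (hε : 0 < ε) (hε3 : ε < 1 / 3)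
    {S : Set ℕ} (hS : ∀ n ∈ S, 2 * n ∈ S) (hG : Gaps S ε)
    (h1 : Tendsto (fun n : ℕ => P c n n * (n : ℝ) ^ β) (atTop ⊓ 𝓟 S) (𝓝 (2 ^ β / A))) :
    Tendsto (fun n : ℕ => rr c μ n / (n : ℝ) ^ β) atTop (𝓝 A) := by
  apply amp_tend_of h β hA
  have h2 := amp_of_PP h β hA hS h1
  obtain ⟨K, hK0, hK⟩ := y_all h (show 0 < ε / 2 by linarith) (show ε / 2 < 1 / 3 by linarith)
  obtain ⟨n0, hn0⟩ := eventually_atTop.mp hG
  have hex : ∀ n : ℕ, ∃ m : ℕ, n0 ≤ n → m ∈ S ∧ n ≤ m ∧ m % 2 = n % 2 ∧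
      (m : ℝ) ≤ n + (n : ℝ) ^ (1 / 3 - ε) := by
    intro n
    by_cases hn : n0 ≤ n
    · obtain ⟨m, hm⟩ := hn0 n hn
      exact ⟨m, fun _ => hm⟩
    · exact ⟨0, fun h => absurd h hn⟩
  choose f hf using hex
  have tf1 : Tendsto f atTop atTop := by
    refine tendsto_atTop_mono' _ ?_ tendsto_id
    filter_upwards [eventually_ge_atTop n0] with n hn
    exact (hf n hn).2.1
  have tf : Tendsto f atTop (atTop ⊓ 𝓟 S) := by
    rw [tendsto_inf]
    refine ⟨tf1, tendsto_principal.mpr ?_⟩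
    filter_upwards [eventually_ge_atTop n0] with n hn
    exact (hf n hn).1
  have h3 := h2.comp tf
  have hdiff : Tendsto (fun n : ℕ => (y c μ (f n) - β * Real.log (f n)) -
      (y c μ n - β * Real.log n)) atTop (𝓝 0) := by
    have t1 : Tendsto (fun n : ℕ => K * (n : ℝ) ^ (-(ε / 2)) + |β| * (n : ℝ) ^ (-(ε / 2))) atTop
        (𝓝 0) := by
      have h5 := (tendsto_rpow_neg_atTop (show (0 : ℝ) < ε / 2 by linarith)).comp
        (tendsto_natCast_atTop_atTop (R := ℝ))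
      have := (h5.const_mul K).add (h5.const_mul |β|)
      simpa using this
    refine squeeze_zero_norm' ?_ t1
    filter_upwards [eventually_ge_atTop n0, eventually_ge_atTop 1] with n hn hn1
    obtain ⟨-, a1, a2, a3⟩ := hf n hn
    have hn' : (0 : ℝ) < n := by exact_mod_cast hn1
    have b2 : (n : ℝ) ≤ f n := by exact_mod_cast a1
    have e1 : n + (f n - n) = f n := by omega
    have e2 : ((f n - n : ℕ) : ℝ) = (f n : ℝ) - n := by rw [Nat.cast_sub a1]
    have hev : Even (f n - n) := by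
      rw [Nat.even_iff]
      omega
    obtain ⟨h6, -⟩ := hK n hn1 (f n - n)
    obtain ⟨h7, h8⟩ := h6 hev
    rw [e1, e2] at h7 h8
    have g0 : (f n : ℝ) - n ≤ (n : ℝ) ^ (1 / 3 - ε) := by linarith
    have g1 : ((f n : ℝ) - n) * (n : ℝ) ^ (-(1 / 3 : ℝ) + ε / 2) ≤ (n : ℝ) ^ (-(ε / 2)) := by
      calc ((f n : ℝ) - n) * (n : ℝ) ^ (-(1 / 3 : ℝ) + ε / 2) ≤
            (n : ℝ) ^ (1 / 3 - ε) * (n : ℝ) ^ (-(1 / 3 : ℝ) + ε / 2) := by gcongr
        _ = (n : ℝ) ^ (-(ε / 2)) := by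
          rw [← Real.rpow_add hn']
          congr 1
          ring
    have g2 : ((f n : ℝ) - n) * (n : ℝ) ^ (-(2 / 5 : ℝ) + ε / 2) ≤ (n : ℝ) ^ (-(ε / 2)) := by
      refine le_trans ?_ g1
      have := rpow_le_of hn1 (show -(2 / 5 : ℝ) + ε / 2 ≤ -(1 / 3 : ℝ) + ε / 2 by linarith)
      exact mul_le_mul_of_nonneg_left this (by linarith)
    have g3 := mul_le_mul_of_nonneg_left g1 hK0
    have g4 := mul_le_mul_of_nonneg_left g2 hK0
    have g5 : |Real.log (f n) - Real.log n| ≤ (n : ℝ) ^ (-(ε / 2)) := by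
      have b3 : Real.log n ≤ Real.log (f n) := Real.log_le_log hn' b2
      rw [abs_of_nonneg (by linarith), ← Real.log_div (by linarith) hn'.ne']
      refine (Real.log_le_sub_one_of_pos (div_pos (by linarith) hn')).trans ?_
      have b4 : (f n : ℝ) / n - 1 = ((f n : ℝ) - n) * (n : ℝ) ^ (-1 : ℝ) := by
        rw [Real.rpow_neg_one]
        field_simp
      rw [b4]
      refine le_trans ?_ g1
      exact mul_le_mul_of_nonneg_left (rpow_le_of hn1 (by linarith)) (by linarith)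
    rw [Real.norm_eq_abs]
    have e3 : (y c μ (f n) - β * Real.log (f n)) - (y c μ n - β * Real.log n) =
        (y c μ (f n) - y c μ n) - β * (Real.log (f n) - Real.log n) := by ring
    rw [e3]
    refine (abs_sub _ _).trans (add_le_add ?_ ?_)
    · rw [abs_le]
      constructor <;> linarith
    · rw [abs_mul]
      exact mul_le_mul_of_nonneg_left g5 (abs_nonneg β)
  have h9 := h3.sub hdiff
  rw [sub_zero] at h9
  refine h9.congr fun n => ?_
  simp only [Function.comp_apply]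
  ring

/-- **a short and a long walk**, even length of the short one -/
theorem iff_unequal (h : Hy c μ) (β : ℝ) {A : ℝ} (hA : 0 < A) {ε : ℝ} (hε : 0 < ε)
    (hε3 : ε < 1 / 3) {N : ℕ → ℕ}
    (hN : ∀ᶠ k : ℕ in atTop, ((2 * k : ℕ) : ℝ) ≤ (N k : ℝ) ^ (1 / 3 - ε)) :
    Tendsto (fun k : ℕ => rr c μ (2 * k) / ((2 * k : ℕ) : ℝ) ^ β) atTop (𝓝 A) ↔
      Tendsto (fun k : ℕ => P c (N k) (2 * k) * ((2 * k : ℕ) : ℝ) ^ β) atTop (𝓝 A⁻¹) := by
  obtain ⟨K, hK0, hK⟩ := y_all h (show 0 < ε / 2 by linarith) (show ε / 2 < 1 / 3 by linarith)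
  have hNlow : ∀ᶠ k : ℕ in atTop, k ≤ N k := by
    filter_upwards [hN, eventually_ge_atTop 1] with k h1 h2
    by_contra hcon
    push Not at hcon
    rcases Nat.eq_zero_or_pos (N k) with h0 | h0
    · rw [h0, Nat.cast_zero, Real.zero_rpow (by linarith)] at h1
      have : (0 : ℝ) < ((2 * k : ℕ) : ℝ) := by exact_mod_cast (show 0 < 2 * k by omega)
      linarith
    · have h3 : (N k : ℝ) ^ (1 / 3 - ε) ≤ N k := by
        have := rpow_le_of h0 (show 1 / 3 - ε ≤ 1 by linarith)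
        rwa [Real.rpow_one] at this
      have h4 : (N k : ℝ) < k := by exact_mod_cast hcon
      push_cast at h1
      have : (0 : ℝ) < k := by exact_mod_cast h2
      linarith
  have hNt : Tendsto N atTop atTop := tendsto_atTop_mono' _ hNlow tendsto_id
  have hd : Tendsto (fun k : ℕ => y c μ (N k + 2 * k) - y c μ (N k)) atTop (𝓝 0) := by
    have t1 : Tendsto (fun k : ℕ => K * (N k : ℝ) ^ (-(ε / 2))) atTop (𝓝 0) := by
      have h5 := ((tendsto_rpow_neg_atTop (show (0 : ℝ) < ε / 2 by linarith)).comp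
        (tendsto_natCast_atTop_atTop (R := ℝ))).comp hNt
      have := h5.const_mul K
      simpa [Function.comp_def] using this
    refine squeeze_zero_norm' ?_ t1
    filter_upwards [hN, hNt.eventually_ge_atTop 1] with k h1 h2
    have hN0 : (0 : ℝ) < N k := by exact_mod_cast h2
    obtain ⟨h6, -⟩ := hK (N k) h2 (2 * k)
    obtain ⟨h7, h8⟩ := h6 (even_two_mul k)
    have g1 : ((2 * k : ℕ) : ℝ) * (N k : ℝ) ^ (-(1 / 3 : ℝ) + ε / 2) ≤ (N k : ℝ) ^ (-(ε / 2)) := by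
      calc ((2 * k : ℕ) : ℝ) * (N k : ℝ) ^ (-(1 / 3 : ℝ) + ε / 2) ≤
            (N k : ℝ) ^ (1 / 3 - ε) * (N k : ℝ) ^ (-(1 / 3 : ℝ) + ε / 2) := by gcongr
        _ = (N k : ℝ) ^ (-(ε / 2)) := by
          rw [← Real.rpow_add hN0]
          congr 1
          ring
    have g2 : ((2 * k : ℕ) : ℝ) * (N k : ℝ) ^ (-(2 / 5 : ℝ) + ε / 2) ≤ (N k : ℝ) ^ (-(ε / 2)) := by
      refine le_trans ?_ g1
      have := rpow_le_of h2 (show -(2 / 5 : ℝ) + ε / 2 ≤ -(1 / 3 : ℝ) + ε / 2 by linarith)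
      exact mul_le_mul_of_nonneg_left this (by positivity)
    have g3 := mul_le_mul_of_nonneg_left g1 hK0
    have g4 := mul_le_mul_of_nonneg_left g2 hK0
    rw [Real.norm_eq_abs, abs_le]
    constructor <;> linarith
  have hAi : 0 < A⁻¹ := inv_pos.2 hA
  have t2 : Tendsto (fun k : ℕ => 2 * k) atTop atTop := par_tend 0
  have e1 : ∀ᶠ k : ℕ in atTop, 0 < rr c μ (2 * k) / ((2 * k : ℕ) : ℝ) ^ β :=
    t2.eventually (amp_ev h β)
  have e2 : ∀ᶠ k : ℕ in atTop, 0 < P c (N k) (2 * k) * ((2 * k : ℕ) : ℝ) ^ β := by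
    filter_upwards [eventually_ge_atTop 1] with k hk
    have hn' : (0 : ℝ) < ((2 * k : ℕ) : ℝ) := by exact_mod_cast (show 0 < 2 * k by omega)
    have := P_pos h (N k) (2 * k)
    positivity
  rw [tendsto_log_iff e1 hA, tendsto_log_iff e2 hAi, Real.log_inv]
  have key : ∀ᶠ k : ℕ in atTop, Real.log (P c (N k) (2 * k) * ((2 * k : ℕ) : ℝ) ^ β) =
      (y c μ (N k + 2 * k) - y c μ (N k)) -
        Real.log (rr c μ (2 * k) / ((2 * k : ℕ) : ℝ) ^ β) := by
    filter_upwards [eventually_ge_atTop 1] with k hk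
    have hn' : (0 : ℝ) < ((2 * k : ℕ) : ℝ) := by exact_mod_cast (show 0 < 2 * k by omega)
    rw [log_amp h β (show 1 ≤ 2 * k by omega), Real.log_mul (P_pos h _ _).ne'
      (Real.rpow_pos_of_pos hn' β).ne', log_P h, Real.log_rpow hn']
    ring
  constructor
  · intro h1
    have h2 := hd.sub h1
    rw [zero_sub] at h2
    exact h2.congr' (key.mono fun k hk => hk.symm)
  · intro h1
    have h2 := hd.sub h1
    rw [zero_sub, neg_neg] at h2
    refine h2.congr' (key.mono fun k hk => ?_)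
    rw [hk]
    ring

end Run7.h130.PL.Z3
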