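import Mathlib

/-!
# Limit points of slowly varying sequences

`Cl x` is the set of the limit points of a real sequence in `[-∞, ∞]`, `lo x` and `hi x` are its
lower and upper limit.
-/

set_option autoImplicit false

namespace Run7.h130.PL

open Filter Topology Set

/-- the limit points of a real sequence in `[-∞, ∞]` -/
def Cl (x : ℕ → ℝ) : Set EReal := {t | MapClusterPt t atTop (fun n => ((x n : ℝ) : EReal))}

/-- the lower limit -/
noncomputable def lo (x : ℕ → ℝ) : EReal := liminf (fun n => ((x n : ℝ) : EReal)) atTop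

/-- the upper limit -/
noncomputable def hi (x : ℕ → ℝ) : EReal := limsup (fun n => ((x n : ℝ) : EReal)) atTop

theorem lo_le_hi (x : ℕ → ℝ) : lo x ≤ hi x := liminf_le_limsup

theorem freq_lt {x : ℕ → ℝ} {t : ℝ} (h : lo x < t) : ∃ᶠ n in atTop, x n < t :=
  (frequently_lt_of_liminf_lt (by isBoundedDefault) h).mono fun _ hn => EReal.coe_lt_coe_iff.1 hn

theorem freq_gt {x : ℕ → ℝ} {t : ℝ} (h : (t : EReal) < hi x) : ∃ᶠ n in atTop, t < x n :=
  (frequently_lt_of_lt_limsup (by isBoundedDefault) h).mono fun _ hn => EReal.coe_lt_coe_iff.1 hn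

theorem lo_le_of_freq {x : ℕ → ℝ} {t : ℝ} (h : ∃ᶠ n in atTop, x n ≤ t) : lo x ≤ t :=
  liminf_le_of_frequently_le (h.mono fun _ hn => EReal.coe_le_coe_iff.2 hn) (by isBoundedDefault)

theorem le_hi_of_freq {x : ℕ → ℝ} {t : ℝ} (h : ∃ᶠ n in atTop, t ≤ x n) : (t : EReal) ≤ hi x :=
  le_limsup_of_frequently_le (h.mono fun _ hn => EReal.coe_le_coe_iff.2 hn) (by isBoundedDefault)

theorem mem_Icc {x : ℕ → ℝ} {t : EReal} (h : t ∈ Cl x) : t ∈ Icc (lo x) (hi x) := by
  have h : MapClusterPt t atTop (fun n => ((x n : ℝ) : EReal)) := h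
  rw [mapClusterPt_iff_frequently] at h
  constructor
  · by_contra hcon
    push Not at hcon
    obtain ⟨c, h1, h2⟩ := exists_between hcon
    have h3 : ∀ᶠ n in atTop, c < ((x n : ℝ) : EReal) := eventually_lt_of_lt_liminf h2
    obtain ⟨n, h4, h5⟩ := ((h _ (Iio_mem_nhds h1)).and_eventually h3).exists
    exact absurd (lt_trans h5 h4) (lt_irrefl _)
  · by_contra hcon
    push Not at hcon
    obtain ⟨c, h1, h2⟩ := exists_between hcon
    have h3 : ∀ᶠ n in atTop, ((x n : ℝ) : EReal) < c := eventually_lt_of_limsup_lt h1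
    obtain ⟨n, h4, h5⟩ := ((h _ (Ioi_mem_nhds h2)).and_eventually h3).exists
    exact absurd (lt_trans h5 h4) (lt_irrefl _)

/-- a real number which is approached infinitely often is a limit point -/
theorem mem_Cl {x : ℕ → ℝ} {t : ℝ} (h : ∀ ε : ℝ, 0 < ε → ∃ᶠ n in atTop, |x n - t| ≤ ε) :
    (t : EReal) ∈ Cl x := by
  have h1 : MapClusterPt t atTop x := by
    rw [mapClusterPt_iff_frequently]
    intro s hs
    obtain ⟨δ, hδ, hs⟩ := Metric.mem_nhds_iff.mp hs
    refine (h (δ / 2) (by linarith)).mono fun n hn => hs ?_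
    rw [Metric.mem_ball, Real.dist_eq]
    linarith
  exact h1.continuousAt_comp (continuous_coe_real_ereal.continuousAt)

theorem of_mem_Cl {x : ℕ → ℝ} {t : ℝ} (h : (t : EReal) ∈ Cl x) :
    ∀ ε : ℝ, 0 < ε → ∃ᶠ n in atTop, |x n - t| ≤ ε := by
  intro ε hε
  have h : MapClusterPt (t : EReal) atTop (fun n => ((x n : ℝ) : EReal)) := h
  rw [mapClusterPt_iff_frequently] at h
  refine (h _ ((isOpen_Ioo (a := ((t - ε : ℝ) : EReal)) (b := ((t + ε : ℝ) : EReal))).mem_nhds
    ⟨EReal.coe_lt_coe_iff.2 (by linarith), EReal.coe_lt_coe_iff.2 (by linarith)⟩)).mono ?_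
  rintro n ⟨h1, h2⟩
  have h1' := EReal.coe_lt_coe_iff.1 h1
  have h2' := EReal.coe_lt_coe_iff.1 h2
  rw [abs_le]
  constructor <;> linarith

/-- the limit points are closed -/
theorem isClosed_Cl (x : ℕ → ℝ) : IsClosed (Cl x) := isClosed_setOfPred_clusterPt

/-- if all the real numbers strictly between the lower and the upper limit are limit points then the
limit points form the whole closed interval -/
theorem Cl_eq {x : ℕ → ℝ}
    (h : ∀ t : ℝ, lo x < t → (t : EReal) < hi x → (t : EReal) ∈ Cl x) :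
    Cl x = Icc (lo x) (hi x) := by
  apply Subset.antisymm (fun t ht => mem_Icc ht)
  rcases (lo_le_hi x).eq_or_lt with he | hlt
  · intro t ht
    have : t = lo x := le_antisymm (by rw [he]; exact ht.2) ht.1
    rw [this]
    have ht : Tendsto (fun n => ((x n : ℝ) : EReal)) atTop (𝓝 (lo x)) :=
      tendsto_of_liminf_eq_limsup rfl he.symm
    exact ht.mapClusterPt
  · have h1 : Ioo (lo x) (hi x) ⊆ Cl x := by
      intro t ht
      have ht1 : t ≠ ⊤ := (lt_of_lt_of_le ht.2 le_top).ne
      have ht2 : t ≠ ⊥ := (lt_of_le_of_lt bot_le ht.1).ne'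
      lift t to ℝ using ⟨ht1, ht2⟩
      exact h t ht.1 ht.2
    have h2 := closure_mono h1
    rw [closure_Ioo hlt.ne, (isClosed_Cl x).closure_eq] at h2
    exact h2

/-- a finite limit point with only countably many limit points near it is the limit, if the limit
points form an interval -/
theorem tendsto_iff {x : ℕ → ℝ} (h : Cl x = Icc (lo x) (hi x)) (a : ℝ) :
    Tendsto x atTop (𝓝 a) ↔ (a : EReal) ∈ Cl x ∧
      ∃ δ : ℝ, 0 < δ ∧ {t : ℝ | (t : EReal) ∈ Cl x ∧ |t - a| < δ}.Countable := by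
  constructor
  · intro ht
    have h1 : Tendsto (fun n => ((x n : ℝ) : EReal)) atTop (𝓝 (a : EReal)) :=
      (continuous_coe_real_ereal.tendsto a).comp ht
    refine ⟨h1.mapClusterPt, 1, one_pos, (countable_singleton a).mono ?_⟩
    rintro t ⟨ht1, -⟩
    have h2 := mem_Icc ht1
    rw [lo, hi, h1.liminf_eq, h1.limsup_eq] at h2
    exact le_antisymm (EReal.coe_le_coe_iff.1 h2.2) (EReal.coe_le_coe_iff.1 h2.1)
  · rintro ⟨h1, δ, hδ, h2⟩
    have h3 := mem_Icc h1
    have hlo : lo x = a := by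
      by_contra hne
      have hlt : lo x < (a : EReal) := lt_of_le_of_ne h3.1 hne
      obtain ⟨b, hb1, hb2⟩ := EReal.lt_iff_exists_real_btwn.1 hlt
      have hb3 := EReal.coe_lt_coe_iff.1 hb2
      have hsub : Ioo (max b (a - δ)) a ⊆ {t : ℝ | (t : EReal) ∈ Cl x ∧ |t - a| < δ} := by
        intro t ht
        have m1 : b < t := lt_of_le_of_lt (le_max_left _ _) ht.1
        have m2 : a - δ < t := lt_of_le_of_lt (le_max_right _ _) ht.1
        refine ⟨?_, ?_⟩
        · rw [h]
          exact ⟨(hb1.trans (EReal.coe_lt_coe_iff.2 m1)).le,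
            (EReal.coe_lt_coe_iff.2 ht.2).le.trans h3.2⟩
        · rw [abs_lt]
          constructor <;> linarith [ht.2]
      have := Cardinal.Real.Ioo_countable_iff.mp (h2.mono hsub)
      have h5 : max b (a - δ) < a := max_lt hb3 (by linarith)
      exact absurd this (not_le.2 h5)
    have hhi : hi x = a := by
      by_contra hne
      have hlt : (a : EReal) < hi x := lt_of_le_of_ne h3.2 (Ne.symm hne)
      obtain ⟨b, hb1, hb2⟩ := EReal.lt_iff_exists_real_btwn.1 hlt
      have hb3 := EReal.coe_lt_coe_iff.1 hb1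
      have hsub : Ioo a (min b (a + δ)) ⊆ {t : ℝ | (t : EReal) ∈ Cl x ∧ |t - a| < δ} := by
        intro t ht
        have m1 : t < b := lt_of_lt_of_le ht.2 (min_le_left _ _)
        have m2 : t < a + δ := lt_of_lt_of_le ht.2 (min_le_right _ _)
        refine ⟨?_, ?_⟩
        · rw [h]
          exact ⟨h3.1.trans (EReal.coe_lt_coe_iff.2 ht.1).le,
            ((EReal.coe_lt_coe_iff.2 m1).trans hb2).le⟩
        · rw [abs_lt]
          constructor <;> linarith [ht.1]
      have := Cardinal.Real.Ioo_countable_iff.mp (h2.mono hsub)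
      have h5 : a < min b (a + δ) := lt_min hb3 (by linarith)
      exact absurd this (not_le.2 h5)
    have ht : Tendsto (fun n => ((x n : ℝ) : EReal)) atTop (𝓝 (a : EReal)) :=
      tendsto_of_liminf_eq_limsup hlo hhi
    exact (EReal.tendsto_coe.1 ht)

/-- a level which the sequence passes downwards -/
theorem cross {x : ℕ → ℝ} {t : ℝ} (h1 : ∃ᶠ n in atTop, x n < t) (h2 : ∃ᶠ n in atTop, t ≤ x n) :
    ∃ᶠ n in atTop, t ≤ x n ∧ x (n + 1) < t := by
  rw [frequently_atTop] at *
  intro N
  obtain ⟨n, hn, hw⟩ := h2 N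
  obtain ⟨m, hm, hw'⟩ := h1 n
  by_contra hcon
  push Not at hcon
  have key : ∀ j : ℕ, t ≤ x (n + j) := by
    intro j
    induction j with
    | zero => simpa using hw
    | succ j ih => exact hcon (n + j) (by omega) ih
  have h1 := key (m - n)
  rw [show n + (m - n) = m by omega] at h1
  linarith

end Run7.h130.PL
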