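import Pool.Agent.Run7.h130.PL.Pow

/-!
# From the ratio of `r (2 n)` and `r n ^ 2` to the amplitude of `r`
-/

set_option autoImplicit false

namespace Run7.h130.PL

open Filter Topology Set

/-- `y n - β log n` converges along a set of numbers closed under doubling if
`y (2 n) - 2 y n + β log n` does and `y n = o(n)` -/
theorem of_double {y : ℕ → ℝ} (hy : Tendsto (fun n : ℕ => y n / n) atTop (𝓝 0)) {S : Set ℕ}
    (hS : ∀ n ∈ S, 2 * n ∈ S) {β L : ℝ}
    (h : Tendsto (fun n : ℕ => y (2 * n) - 2 * y n + β * Real.log n) (atTop ⊓ 𝓟 S) (𝓝 L)) :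
    Tendsto (fun n : ℕ => y n - β * Real.log n) (atTop ⊓ 𝓟 S) (𝓝 (β * Real.log 2 - L)) := by
  set κ := β * Real.log 2 - L with hκ
  set z : ℕ → ℝ := fun n => y n - β * Real.log n - κ with hz
  have hz0 : Tendsto (fun n : ℕ => z n / n) atTop (𝓝 0) := by
    have h1 : Tendsto (fun n : ℕ => Real.log n / n) atTop (𝓝 0) := by
      have := (Real.isLittleO_log_id_atTop.tendsto_div_nhds_zero).comp
        (tendsto_natCast_atTop_atTop (R := ℝ))
      simpa [Function.comp_def] using this
    have h2 : Tendsto (fun n : ℕ => κ / (n : ℝ)) atTop (𝓝 0) :=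
      tendsto_const_div_atTop_nhds_zero_nat _
    have h3 := (hy.sub (h1.const_mul β)).sub h2
    simp only [mul_zero, sub_zero] at h3
    refine h3.congr fun n => ?_
    simp only [hz]
    ring
  have hd : ∀ n : ℕ, 1 ≤ n → z (2 * n) - 2 * z n =
      (y (2 * n) - 2 * y n + β * Real.log n) - L := by
    intro n hn
    have hn' : (0 : ℝ) < n := by exact_mod_cast hn
    simp only [hz]
    push_cast
    rw [Real.log_mul (by norm_num) hn'.ne', hκ]
    ring
  rw [Metric.tendsto_nhds] at h ⊢
  intro ε hε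
  have h1 := h (ε / 2) (by linarith)
  rw [eventually_inf_principal] at h1 ⊢
  obtain ⟨n₀, hn₀⟩ := eventually_atTop.1 h1
  filter_upwards [eventually_ge_atTop (max n₀ 1)] with n hn hnS
  have hn1 : 1 ≤ n := (le_max_right _ _).trans hn
  have hn2 : n₀ ≤ n := (le_max_left _ _).trans hn
  have hpow : ∀ J : ℕ, 2 ^ J * n ∈ S := by
    intro J
    induction J with
    | zero => simpa using hnS
    | succ J ih =>
      have := hS _ ih
      rwa [← mul_assoc, ← pow_succ'] at this
  have key : ∀ J : ℕ, |z n| ≤ |z (2 ^ J * n)| / 2 ^ J + ε / 2 * (1 - (1 / 2) ^ J) := by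
    intro J
    induction J with
    | zero => simp
    | succ J ih =>
      have hle : n ≤ 2 ^ J * n := Nat.le_mul_of_pos_left n (by positivity)
      have h2 := hn₀ (2 ^ J * n) (hn2.trans hle) (hpow J)
      rw [Real.dist_eq, ← hd _ (hn1.trans hle)] at h2
      have h3 : |z (2 ^ J * n)| ≤ |z (2 * (2 ^ J * n))| / 2 + ε / 4 := by
        have e : z (2 ^ J * n) = z (2 * (2 ^ J * n)) / 2 -
            (z (2 * (2 ^ J * n)) - 2 * z (2 ^ J * n)) / 2 := by ring
        rw [e]
        refine (abs_sub _ _).trans ?_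
        rw [abs_div, abs_div, abs_of_pos (show (0 : ℝ) < 2 by norm_num)]
        linarith
      have e2 : 2 * (2 ^ J * n) = 2 ^ (J + 1) * n := by rw [pow_succ]; ring
      rw [e2] at h3
      have h4 : |z (2 ^ J * n)| / 2 ^ J ≤ (|z (2 ^ (J + 1) * n)| / 2 + ε / 4) / 2 ^ J :=
        div_le_div_of_nonneg_right h3 (by positivity)
      refine ih.trans ?_
      calc |z (2 ^ J * n)| / 2 ^ J + ε / 2 * (1 - (1 / 2) ^ J)
          ≤ (|z (2 ^ (J + 1) * n)| / 2 + ε / 4) / 2 ^ J + ε / 2 * (1 - (1 / 2) ^ J) := by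
            linarith
        _ = |z (2 ^ (J + 1) * n)| / 2 ^ (J + 1) + ε / 2 * (1 - (1 / 2) ^ (J + 1)) := by
            rw [one_div_pow, one_div_pow, pow_succ]
            field_simp
            ring
  have hlim : Tendsto (fun J : ℕ => |z (2 ^ J * n)| / 2 ^ J) atTop (𝓝 0) := by
    have h5 : Tendsto (fun J : ℕ => 2 ^ J * n) atTop atTop := by
      refine tendsto_atTop_mono (fun J => ?_) tendsto_id
      exact (Nat.lt_two_pow_self (n := J)).le.trans (Nat.le_mul_of_pos_right _ hn1)
    have h6 := ((hz0.comp h5).abs).const_mul (n : ℝ)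
    rw [abs_zero, mul_zero] at h6
    refine h6.congr fun J => ?_
    have hn' : (0 : ℝ) < n := by exact_mod_cast hn1
    simp only [Function.comp_apply]
    push_cast
    rw [abs_div, abs_of_pos (show (0 : ℝ) < 2 ^ J * (n : ℝ) by positivity)]
    field_simp
  obtain ⟨J, hJ⟩ := (hlim.eventually_lt_const (show (0 : ℝ) < ε / 4 by linarith)).exists
  have h7 := key J
  have h8 : (0 : ℝ) ≤ (1 / 2) ^ J := by positivity
  rw [Real.dist_eq]
  have h9 : |z n| < ε := by nlinarith
  simpa only [hz] using h9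

theorem to_double {y : ℕ → ℝ} {β L : ℝ}
    (h : Tendsto (fun n : ℕ => y n - β * Real.log n) atTop (𝓝 L)) :
    Tendsto (fun n : ℕ => y (2 * n) - 2 * y n + β * Real.log n) atTop (𝓝 (β * Real.log 2 - L)) := by
  have h2 : Tendsto (fun n : ℕ => 2 * n) atTop atTop :=
    tendsto_id.const_mul_atTop' (by norm_num)
  have h3 := ((h.comp h2).sub (h.const_mul 2)).add_const (β * Real.log 2)
  have e : L - 2 * L + β * Real.log 2 = β * Real.log 2 - L := by ring
  rw [e] at h3
  refine h3.congr' ?_
  filter_upwards [eventually_ge_atTop 1] with n hn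
  have hn' : (0 : ℝ) < n := by exact_mod_cast hn
  simp only [Function.comp_apply]
  push_cast
  rw [Real.log_mul (by norm_num) hn'.ne']
  ring

/-- convergence of positive numbers and of their logarithms -/
theorem tendsto_log_iff {F : Filter ℕ} {x : ℕ → ℝ} (hx : ∀ᶠ n in F, 0 < x n) {A : ℝ} (hA : 0 < A) :
    Tendsto x F (𝓝 A) ↔ Tendsto (fun n => Real.log (x n)) F (𝓝 (Real.log A)) := by
  constructor
  · intro h
    exact (Real.continuousAt_log hA.ne').tendsto.comp h
  · intro h
    have h2 := (Real.continuous_exp.tendsto _).comp h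
    rw [Real.exp_log hA] at h2
    refine h2.congr' ?_
    filter_upwards [hx] with n hn
    exact Real.exp_log hn

end Run7.h130.PL
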