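import Pool.Agent.Run7.h130.PL.Dbl
import Pool.Agent.N226.KZ.Cor

/-!
# Lattice polygons of a class of knot types
-/

set_option autoImplicit false

namespace Run7.h130.PL.Knot

open Finset Filter Topology KN Run7.h130.PL

variable {Q : List Dir → Prop}

/-- `p_n / μ^n` -/
noncomputable def rr (Q : List Dir → Prop) (n : ℕ) : ℝ := pq Q n / gr Q ^ n

theorem rr_pos (hQ : KClass Q) (hne : ∃ w, SAP w ∧ Q w) : ∀ᶠ k : ℕ in atTop, 0 < rr Q (2 * k + 0) := by
  obtain ⟨g1, -, g2⟩ := gr_bounds Q hQ hne
  filter_upwards [class_pos Q hQ hne] with k h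
  exact div_pos h (pow_pos (by linarith) _)

theorem nn_cast (k : ℕ) : NN 0 k = 2 * (k : ℝ) := by
  unfold NN
  push_cast
  ring

/-- the first difference where `p_n` is not small -/
theorem step (hQ : KClass Q) (hne : ∃ w, SAP w ∧ Q w) {φ : ℕ → ℝ} (R : Pool.Agent.N226.KZ.Rate φ)
    (hup : ∀ᶠ k : ℕ in atTop, pq Q (2 * k) ≤ gr Q ^ (2 * k) * Real.exp (φ (2 * k))) :
    ∃ C : ℝ, 0 < C ∧ ∀ β : ℝ, Par (rr Q) 0 β
      (fun k => C * Real.sqrt ((3 + |β|) * (φ (2 * k) / (2 * k)))) := by
  obtain ⟨g1, -, g2⟩ := gr_bounds Q hQ hne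
  have hμ : 0 < gr Q := by linarith
  obtain ⟨δ, C, hδ, hC, hA⟩ := Pool.Agent.N226.KZ.corA hQ hne R hup 1 le_rfl
  refine ⟨C, hC, fun β => ⟨rr_pos hQ hne, ?_, fun c hc => ?_⟩⟩
  · have h1 : Tendsto (fun k : ℕ => φ (2 * k) / (2 * k : ℝ)) atTop (𝓝 0) := by
      have := R.lim.comp (tendsto_id.const_mul_atTop' (show 0 < 2 by norm_num) :
        Tendsto (fun k : ℕ => 2 * k) atTop atTop)
      refine this.congr fun k => ?_
      simp only [Function.comp_apply]
      push_cast
      rfl
    have h2 := ((h1.const_mul (3 + |β|)).sqrt).const_mul C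
    simpa using h2
  · have t2 : Tendsto (fun k : ℕ => 2 * k) atTop atTop :=
      tendsto_id.const_mul_atTop' (show 0 < 2 by norm_num)
    have hφlim : ∀ᶠ k : ℕ in atTop, (2 + |β|) * φ (2 * k) ≤ δ * (2 * k) := by
      have h3 := (R.lim.comp t2).const_mul (2 + |β|)
      rw [mul_zero] at h3
      filter_upwards [h3.eventually_lt_const hδ, eventually_ge_atTop 1] with k h4 h5
      have hk : (0 : ℝ) < 2 * k := by
        have : (0 : ℝ) < k := by exact_mod_cast h5
        linarith
      simp only [Function.comp_apply] at h4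
      push_cast at h4
      rw [← mul_div_assoc, div_lt_iff₀ hk] at h4
      exact h4.le
    have hφc : ∀ᶠ k : ℕ in atTop, |Real.log c| ≤ φ (2 * k) := by
      have h3 : Tendsto (fun k : ℕ => Real.log ((2 * k : ℕ) : ℝ)) atTop atTop :=
        Real.tendsto_log_atTop.comp (tendsto_natCast_atTop_atTop.comp t2)
      filter_upwards [h3.eventually_ge_atTop |Real.log c|, eventually_ge_atTop 1] with k h4 h5
      exact h4.trans (R.log _ (by omega))
    filter_upwards [hA, hup, hφlim, hφc, class_pos Q hQ hne, eventually_ge_atTop 1] with k a1 a2 a3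
      a4 a5 a6 hlow
    have hk1 : (1 : ℝ) ≤ k := by exact_mod_cast a6
    have hk : (0 : ℝ) < 2 * k := by linarith
    have hpow : 0 < gr Q ^ (2 * k) := pow_pos hμ _
    have hr : 0 < rr Q (2 * k) := div_pos a5 hpow
    have hlog2 : Real.log (2 * (k : ℝ)) ≤ φ (2 * k) := by
      have := R.log (2 * k) (by omega)
      push_cast at this
      exact this
    have hlog0 : 0 ≤ Real.log (2 * (k : ℝ)) := Real.log_nonneg (by linarith)
    have up : Real.log (rr Q (2 * k)) ≤ φ (2 * k) := by
      rw [Real.log_le_iff_le_exp hr]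
      unfold rr
      rw [div_le_iff₀ hpow]
      linarith [a2, mul_comm (gr Q ^ (2 * k)) (Real.exp (φ (2 * k)))]
    have low : -((1 + |β|) * φ (2 * k)) ≤ Real.log (rr Q (2 * k)) := by
      rw [add_zero, nn_cast] at hlow
      have h3 := Real.log_le_log (by positivity) hlow
      rw [Real.log_mul hc.ne' (by positivity), Real.log_rpow hk] at h3
      have h4 : -(|β| * φ (2 * k)) ≤ β * Real.log (2 * (k : ℝ)) := by
        have h5 := neg_abs_le (β * Real.log (2 * (k : ℝ)))
        rw [abs_mul, abs_of_nonneg hlog0] at h5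
        have h6 := mul_le_mul_of_nonneg_left hlog2 (abs_nonneg β)
        linarith
      have h5 := neg_abs_le (Real.log c)
      linarith
    have hφ0 : 0 ≤ φ (2 * k) := hlog0.trans hlog2
    have habs : |Real.log (rr Q (2 * k))| ≤ (1 + |β|) * φ (2 * k) := by
      rw [abs_le]
      refine ⟨low, up.trans ?_⟩
      nlinarith [abs_nonneg β]
    have h6 := a1 (habs.trans (le_trans (by nlinarith [abs_nonneg β]) a3))
    have e : ∑ i ∈ range (1 + 1), (-1 : ℝ) ^ i * ((Nat.choose 1 i : ℕ) : ℝ) *
        Real.log (pq Q (2 * k + 2 * i) / gr Q ^ (2 * k + 2 * i)) =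
        Real.log (rr Q (2 * k)) - Real.log (rr Q (2 * (k + 1))) := by
      rw [sum_range_succ, sum_range_one]
      simp only [Nat.choose_zero_right, Nat.choose_self, Nat.cast_one, pow_zero, pow_one, mul_zero,
        add_zero, mul_one]
      unfold rr
      ring
    rw [e, pow_one] at h6
    rw [add_zero, add_zero, abs_sub_comm]
    refine h6.trans (mul_le_mul_of_nonneg_left (Real.sqrt_le_sqrt ?_) hC.le)
    rw [← mul_div_assoc]
    apply div_le_div_of_nonneg_right _ hk.le
    have : |Real.log (pq Q (2 * k) / gr Q ^ (2 * k))| ≤ (1 + |β|) * φ (2 * k) := habs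
    nlinarith [abs_nonneg β]

/-- the limits along `n = 2 k` as amplitudes -/
theorem tendsto_amp (β A : ℝ) :
    Tendsto (fun k : ℕ => pq Q (2 * k) / ((2 * k : ℝ) ^ β * gr Q ^ (2 * k))) atTop (𝓝 A) ↔
      Tendsto (amp (rr Q) β 0) atTop (𝓝 A) := by
  have : (fun k : ℕ => pq Q (2 * k) / ((2 * k : ℝ) ^ β * gr Q ^ (2 * k))) = amp (rr Q) β 0 := by
    funext k
    unfold amp rr
    rw [nn_cast, add_zero, mul_comm ((2 * k : ℝ) ^ β), div_div]
  rw [this]

/-- **doubling**: `p_n ~ A μ^n n^β` if and only if `log (p_n / μ^n) = o(n)` and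
`p_{2n} / p_n² ~ 2^β / A n^(-β)` -/
theorem iff_double (hQ : KClass Q) (hne : ∃ w, SAP w ∧ Q w) (β : ℝ) {A : ℝ} (hA : 0 < A) :
    Tendsto (amp (rr Q) β 0) atTop (𝓝 A) ↔
      Tendsto (fun k : ℕ => Real.log (rr Q (2 * k)) / (2 * k)) atTop (𝓝 0) ∧
      Tendsto (fun k : ℕ => pq Q (4 * k) / pq Q (2 * k) ^ 2 * (2 * k : ℝ) ^ β) atTop
        (𝓝 (2 ^ β / A)) := by
  obtain ⟨g1, -, g2⟩ := gr_bounds Q hQ hne
  have hμ : 0 < gr Q := by linarith
  have hL : (0 : ℝ) < 2 ^ β / A := div_pos (Real.rpow_pos_of_pos (by norm_num) β) hA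
  have hpos := class_pos Q hQ hne
  have t2 : Tendsto (fun k : ℕ => 2 * k) atTop atTop :=
    tendsto_id.const_mul_atTop' (show 0 < 2 by norm_num)
  obtain ⟨y, hy⟩ : ∃ y : ℕ → ℝ, y = fun k => Real.log (rr Q (2 * k)) := ⟨_, rfl⟩
  have ev1 : ∀ᶠ k : ℕ in atTop, 0 < amp (rr Q) β 0 k := by
    filter_upwards [rr_pos hQ hne, eventually_ge_atTop 1] with k h1 h2
    have := Real.rpow_pos_of_pos (NN_pos (p := 0) h2) β
    unfold amp
    positivity
  have ev2 : ∀ᶠ k : ℕ in atTop, 0 < pq Q (4 * k) / pq Q (2 * k) ^ 2 * (2 * k : ℝ) ^ β := by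
    filter_upwards [hpos, t2.eventually hpos, eventually_ge_atTop 1] with k h1 h2 h3
    have hk : (0 : ℝ) < k := by exact_mod_cast h3
    rw [← mul_assoc, show 2 * 2 = 4 by norm_num] at h2
    positivity
  have eq1 : ∀ᶠ k : ℕ in atTop, Real.log (amp (rr Q) β 0 k) =
      (y k - β * Real.log k) - β * Real.log 2 := by
    filter_upwards [rr_pos hQ hne, eventually_ge_atTop 1] with k h1 h2
    have hk : (0 : ℝ) < k := by exact_mod_cast h2
    unfold amp
    rw [nn_cast, Real.log_div h1.ne' (by positivity), Real.log_rpow (by positivity),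
      Real.log_mul (by norm_num) hk.ne', hy]
    ring_nf
  have eq2 : ∀ᶠ k : ℕ in atTop, Real.log (pq Q (4 * k) / pq Q (2 * k) ^ 2 * (2 * k : ℝ) ^ β) =
      (y (2 * k) - 2 * y k + β * Real.log k) + β * Real.log 2 := by
    filter_upwards [hpos, t2.eventually hpos, eventually_ge_atTop 1] with k h1 h2 h3
    have hk : (0 : ℝ) < k := by exact_mod_cast h3
    rw [hy]
    simp only
    unfold rr
    rw [← mul_assoc, show 2 * 2 = 4 by norm_num] at h2 ⊢
    rw [Real.log_mul (by positivity) (by positivity), Real.log_div h2.ne' (by positivity),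
      Real.log_rpow (by positivity), Real.log_mul (by norm_num) hk.ne',
      Real.log_div h2.ne' (by positivity), Real.log_div h1.ne' (by positivity), Real.log_pow,
      Real.log_pow, Real.log_pow]
    push_cast
    ring
  have small_iff : Tendsto (fun k : ℕ => Real.log (rr Q (2 * k)) / (2 * k)) atTop (𝓝 0) ↔
      Tendsto (fun k : ℕ => y k / k) atTop (𝓝 0) := by
    constructor
    · intro h
      have := h.const_mul 2
      rw [mul_zero] at this
      refine this.congr fun k => ?_
      rw [hy]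
      simp only
      rw [mul_comm (2 : ℝ) (k : ℝ), ← div_div]
      ring
    · intro h
      have := h.const_mul (1 / 2)
      rw [mul_zero] at this
      refine this.congr fun k => ?_
      rw [hy]
      simp only
      rw [mul_comm (2 : ℝ) (k : ℝ), ← div_div]
      ring
  have hlog2 : Real.log (2 ^ β / A) = β * Real.log 2 - Real.log A := by
    rw [Real.log_div (Real.rpow_pos_of_pos (by norm_num) β).ne' hA.ne', Real.log_rpow (by norm_num)]
  rw [tendsto_log_iff ev1 hA, tendsto_log_iff ev2 hL, small_iff, tendsto_congr' eq1,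
    tendsto_congr' eq2, hlog2]
  constructor
  · intro h
    have h1 : Tendsto (fun k : ℕ => y k - β * Real.log k) atTop
        (𝓝 (Real.log A + β * Real.log 2)) := by
      have := h.add_const (β * Real.log 2)
      refine this.congr fun k => ?_
      ring
    refine ⟨?_, ?_⟩
    · have t1 : Tendsto (fun n : ℕ => Real.log n / n) atTop (𝓝 0) := by
        have := (Real.isLittleO_log_id_atTop.tendsto_div_nhds_zero).comp
          (tendsto_natCast_atTop_atTop (R := ℝ))
        simpa [Function.comp_def] using this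
      have t3 := h1.div_atTop (tendsto_natCast_atTop_atTop (R := ℝ))
      have t4 := t3.add (t1.const_mul β)
      rw [mul_zero, add_zero] at t4
      refine t4.congr fun k => ?_
      ring
    · have h2 := (to_double h1).add_const (β * Real.log 2)
      refine h2.congr' ?_ |>.trans (le_of_eq ?_)
      · exact Eventually.of_forall fun k => rfl
      · congr 1
        ring
  · rintro ⟨h1, h2⟩
    have h3 : Tendsto (fun k : ℕ => y (2 * k) - 2 * y k + β * Real.log k)
        (atTop ⊓ 𝓟 Set.univ) (𝓝 (-Real.log A)) := by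
      rw [principal_univ, inf_top_eq]
      have := h2.add_const (-(β * Real.log 2))
      rw [show β * Real.log 2 - Real.log A + -(β * Real.log 2) = -Real.log A by ring] at this
      refine this.congr fun k => ?_
      ring
    have h4 := of_double h1 (S := Set.univ) (fun _ _ => trivial) h3
    rw [principal_univ, inf_top_eq] at h4
    have h5 := h4.add_const (-(β * Real.log 2))
    rw [show β * Real.log 2 - -Real.log A + -(β * Real.log 2) = Real.log A by ring] at h5
    refine h5.congr fun k => ?_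
    ring

end Run7.h130.PL.Knot
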