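import Pool.Agent.Run7.h130.PL.Core

/-!
# Power laws along subsequences: amplitudes and exponents
-/

set_option autoImplicit false

namespace Run7.h130.PL

open Filter Topology Set

/-- the number `2 k + p` -/
noncomputable def NN (p k : ℕ) : ℝ := ((2 * k + p : ℕ) : ℝ)

/-- the amplitude of `r` at `n = 2 k + p` with respect to the power `n ^ β` -/
noncomputable def amp (r : ℕ → ℝ) (β : ℝ) (p k : ℕ) : ℝ := r (2 * k + p) / NN p k ^ β

/-- the exponent of `r` at `n = 2 k + p` -/
noncomputable def ex (r : ℕ → ℝ) (p k : ℕ) : ℝ := Real.log (r (2 * k + p)) / Real.log (NN p k)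

theorem NN_pos {p k : ℕ} (hk : 1 ≤ k) : 0 < NN p k := by
  unfold NN
  exact_mod_cast (show 0 < 2 * k + p by omega)

theorem NN_ge {p k : ℕ} : (k : ℝ) ≤ NN p k := by
  unfold NN
  exact_mod_cast (show k ≤ 2 * k + p by omega)

theorem NN_succ (p k : ℕ) : NN p (k + 1) = NN p k + 2 := by
  unfold NN
  push_cast
  ring

theorem NN_tend (p : ℕ) : Tendsto (NN p) atTop atTop :=
  tendsto_atTop_mono (fun _ => NN_ge) tendsto_natCast_atTop_atTop

theorem logNN_tend (p : ℕ) : Tendsto (fun k => Real.log (NN p k)) atTop atTop :=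
  Real.tendsto_log_atTop.comp (NN_tend p)

theorem log_step {p k : ℕ} (hk : 1 ≤ k) (β : ℝ) :
    |β * (Real.log (NN p (k + 1)) - Real.log (NN p k))| ≤ 2 * |β| / NN p k := by
  have h0 := NN_pos (p := p) hk
  rw [NN_succ, ← Real.log_div (by linarith) h0.ne', abs_mul]
  have h1 : 0 ≤ Real.log ((NN p k + 2) / NN p k) := by
    apply Real.log_nonneg
    rw [le_div_iff₀ h0]
    linarith
  have h2 := Real.log_le_sub_one_of_pos (show 0 < (NN p k + 2) / NN p k by positivity)
  have h3 : (NN p k + 2) / NN p k - 1 = 2 / NN p k := by field_simp; ring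
  rw [h3] at h2
  rw [abs_of_nonneg h1]
  calc |β| * Real.log ((NN p k + 2) / NN p k) ≤ |β| * (2 / NN p k) :=
        mul_le_mul_of_nonneg_left h2 (abs_nonneg _)
    _ = _ := by ring

/-- slow variation along the numbers `2 k + p`, at the places where `r` is at least a multiple of
`n ^ β` -/
structure Par (r : ℕ → ℝ) (p : ℕ) (β : ℝ) (ρ : ℕ → ℝ) : Prop where
  pos : ∀ᶠ k in atTop, 0 < r (2 * k + p)
  lim : Tendsto ρ atTop (𝓝 0)
  step : ∀ c : ℝ, 0 < c → ∀ᶠ k in atTop, c * NN p k ^ β ≤ r (2 * k + p) →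
    |Real.log (r (2 * (k + 1) + p)) - Real.log (r (2 * k + p))| ≤ ρ k

variable {r : ℕ → ℝ} {p : ℕ} {β : ℝ} {ρ : ℕ → ℝ}

theorem err_tend (S : Par r p β ρ) : Tendsto (fun k => ρ k + 2 * |β| / NN p k) atTop (𝓝 0) := by
  have := S.lim.add ((tendsto_const_nhds (x := 2 * |β|)).div_atTop (NN_tend p))
  simpa using this

/-- every amplitude which is passed infinitely often is attained up to the rate -/
theorem attained (S : Par r p β ρ) {t : ℝ} (ht : 0 < t) (h1 : ∃ᶠ k in atTop, amp r β p k < t)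
    (h2 : ∃ᶠ k in atTop, t ≤ amp r β p k) :
    ∃ᶠ k in atTop, |amp r β p k - t| ≤ 2 * t * (ρ k + 2 * |β| / NN p k) := by
  have hpos' : ∀ᶠ k in atTop, 0 < r (2 * (k + 1) + p) :=
    (tendsto_add_atTop_nat 1).eventually S.pos
  refine ((cross h1 h2).and_eventually (S.pos.and (hpos'.and ((S.step t ht).and
    ((eventually_ge_atTop 1).and
      ((err_tend S).eventually_lt_const (show (0 : ℝ) < 1 / 2 by norm_num))))))).mono ?_
  rintro k ⟨⟨a1, a2⟩, b1, b2, b3, b4, b5⟩
  have hN := NN_pos (p := p) b4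
  have hN' := NN_pos (p := p) (show 1 ≤ k + 1 by omega)
  have hP : 0 < NN p k ^ β := Real.rpow_pos_of_pos hN β
  have hP' : 0 < NN p (k + 1) ^ β := Real.rpow_pos_of_pos hN' β
  have a3 : t * NN p k ^ β ≤ r (2 * k + p) := by
    unfold amp at a1
    rwa [le_div_iff₀ hP] at a1
  have a4 := b3 a3
  have hx : 0 < amp r β p k := by unfold amp; positivity
  have hx' : 0 < amp r β p (k + 1) := by unfold amp; positivity
  have e1 : Real.log (amp r β p k) = Real.log (r (2 * k + p)) - β * Real.log (NN p k) := by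
    unfold amp
    rw [Real.log_div b1.ne' hP.ne', Real.log_rpow hN]
  have e2 : Real.log (amp r β p (k + 1)) =
      Real.log (r (2 * (k + 1) + p)) - β * Real.log (NN p (k + 1)) := by
    unfold amp
    rw [Real.log_div b2.ne' hP'.ne', Real.log_rpow hN']
  have e3 := log_step (p := p) b4 β
  set D := ρ k + 2 * |β| / NN p k with hD
  have e4 : Real.log (amp r β p k) - Real.log (amp r β p (k + 1)) ≤ D := by
    rw [e1, e2]
    have := neg_abs_le (Real.log (r (2 * (k + 1) + p)) - Real.log (r (2 * k + p)))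
    have := le_abs_self (β * (Real.log (NN p (k + 1)) - Real.log (NN p k)))
    linarith
  have e5 : Real.log (amp r β p (k + 1)) < Real.log t := Real.log_lt_log hx' a2
  have e6 : Real.log (amp r β p k) ≤ Real.log t + D := by linarith
  have e7 : amp r β p k ≤ t * Real.exp D := by
    rw [← Real.exp_log hx]
    calc Real.exp (Real.log (amp r β p k)) ≤ Real.exp (Real.log t + D) := Real.exp_le_exp.2 e6
      _ = t * Real.exp D := by rw [Real.exp_add, Real.exp_log ht]
  have hD0 : 0 ≤ D := by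
    have h3 : 0 ≤ ρ k := (abs_nonneg _).trans a4
    have h4 : 0 ≤ 2 * |β| / NN p k := by positivity
    linarith
  have e8 : Real.exp D ≤ 1 + 2 * D := by
    have h5 : Real.exp D * (1 - D) ≤ 1 := by
      have h6 := Real.add_one_le_exp (-D)
      rw [Real.exp_neg] at h6
      have h7 := Real.exp_pos D
      calc Real.exp D * (1 - D) ≤ Real.exp D * (Real.exp D)⁻¹ :=
            mul_le_mul_of_nonneg_left (by linarith) h7.le
        _ = 1 := mul_inv_cancel₀ h7.ne'
    have h8 : 1 ≤ (1 + 2 * D) * (1 - D) := by nlinarith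
    have h9 : 0 < 1 - D := by linarith
    exact le_of_mul_le_mul_right (h5.trans h8) h9
  rw [abs_of_nonneg (by linarith)]
  have : t * Real.exp D ≤ t * (1 + 2 * D) := mul_le_mul_of_nonneg_left e8 ht.le
  linarith

theorem amp_pos (S : Par r p β ρ) : ∀ᶠ k in atTop, 0 < amp r β p k := by
  filter_upwards [S.pos, eventually_ge_atTop 1] with k h1 h2
  have := Real.rpow_pos_of_pos (NN_pos (p := p) h2) β
  unfold amp
  positivity

theorem lo_nonneg {x : ℕ → ℝ} (h : ∀ᶠ k in atTop, 0 ≤ x k) : 0 ≤ lo x := by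
  refine le_liminf_of_le (by isBoundedDefault) ?_
  filter_upwards [h] with k hk
  exact_mod_cast hk

theorem attained' (S : Par r p β ρ) {t : ℝ} (ht : 0 < t) (h1 : lo (amp r β p) < t)
    (h2 : (t : EReal) < hi (amp r β p)) :
    ∃ᶠ k in atTop, |amp r β p k - t| ≤ 2 * t * (ρ k + 2 * |β| / NN p k) :=
  attained S ht (freq_lt h1) ((freq_gt h2).mono fun _ hn => hn.le)

/-- the limit points of the amplitudes form a closed interval -/
theorem amp_Cl (S : Par r p β ρ) :
    Cl (amp r β p) = Icc (lo (amp r β p)) (hi (amp r β p)) := by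
  refine Cl_eq fun t h1 h2 => mem_Cl fun ε hε => ?_
  have h0 : (0 : EReal) ≤ lo (amp r β p) := lo_nonneg ((amp_pos S).mono fun _ h => h.le)
  have ht : 0 < t := by exact_mod_cast h0.trans_lt h1
  have h3 : Tendsto (fun k => 2 * t * (ρ k + 2 * |β| / NN p k)) atTop (𝓝 0) := by
    simpa using (err_tend S).const_mul (2 * t)
  exact ((attained' S ht h1 h2).and_eventually (h3.eventually_le_const hε)).mono
    fun k hk => hk.1.trans hk.2

/-- an exponent strictly between the lower and the upper one: the amplitudes oscillate between `0`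
and infinity -/
theorem amp_osc {c b b' : ℝ} (hpos : ∀ᶠ k in atTop, 0 < r (2 * k + p)) (hb : b < c) (hb' : c < b')
    (h1 : ∃ᶠ k in atTop, ex r p k ≤ b) (h2 : ∃ᶠ k in atTop, b' ≤ ex r p k) :
    lo (amp r c p) = 0 ∧ hi (amp r c p) = ⊤ := by
  have hp : ∀ᶠ k in atTop, 0 < amp r c p k := by
    filter_upwards [hpos, eventually_ge_atTop 1] with k h1 h2
    have := Real.rpow_pos_of_pos (NN_pos (p := p) h2) c
    unfold amp
    positivity
  have hform : ∀ᶠ k in atTop, 0 < Real.log (NN p k) ∧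
      amp r c p k = Real.exp ((ex r p k - c) * Real.log (NN p k)) := by
    filter_upwards [hpos, eventually_ge_atTop 1, (logNN_tend p).eventually_gt_atTop 0]
      with k a1 a2 a3
    refine ⟨a3, ?_⟩
    have hN := NN_pos (p := p) a2
    unfold amp ex
    rw [sub_mul, div_mul_cancel₀ _ a3.ne', Real.exp_sub, Real.exp_log a1, mul_comm c,
      ← Real.rpow_def_of_pos hN]
  constructor
  · refine le_antisymm ?_ (lo_nonneg (hp.mono fun _ h => h.le))
    refine le_of_forall_gt fun B hB => ?_
    obtain ⟨ε, hε1, hε2⟩ := EReal.lt_iff_exists_real_btwn.1 hB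
    have hε : 0 < ε := by exact_mod_cast hε1
    refine lt_of_le_of_lt (lo_le_of_freq (t := ε) ?_) hε2
    have ht : Tendsto (fun k => Real.exp ((b - c) * Real.log (NN p k))) atTop (𝓝 0) :=
      Real.tendsto_exp_atBot.comp ((logNN_tend p).const_mul_atTop_of_neg (by linarith))
    refine ((h1.and_eventually hform).and_eventually (ht.eventually_le_const hε)).mono ?_
    rintro k ⟨⟨a1, a2, a3⟩, a4⟩
    rw [a3]
    refine le_trans (Real.exp_le_exp.2 ?_) a4
    exact mul_le_mul_of_nonneg_right (by linarith) a2.le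
  · rw [EReal.eq_top_iff_forall_lt]
    intro B
    refine lt_of_lt_of_le (b := ((B + 1 : ℝ) : EReal)) (EReal.coe_lt_coe_iff.2 (by linarith)) ?_
    refine le_hi_of_freq ?_
    have ht : Tendsto (fun k => Real.exp ((b' - c) * Real.log (NN p k))) atTop atTop :=
      Real.tendsto_exp_atTop.comp ((logNN_tend p).const_mul_atTop (by linarith))
    refine ((h2.and_eventually hform).and_eventually (ht.eventually_ge_atTop (B + 1))).mono ?_
    rintro k ⟨⟨a1, a2, a3⟩, a4⟩
    rw [a3]
    refine a4.trans (Real.exp_le_exp.2 ?_)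
    exact mul_le_mul_of_nonneg_right (by linarith) a2.le

theorem amp_osc' {c : ℝ} (hpos : ∀ᶠ k in atTop, 0 < r (2 * k + p)) (h1 : lo (ex r p) < c)
    (h2 : (c : EReal) < hi (ex r p)) : lo (amp r c p) = 0 ∧ hi (amp r c p) = ⊤ := by
  obtain ⟨b, hb1, hb2⟩ := EReal.lt_iff_exists_real_btwn.1 h1
  obtain ⟨b', hb1', hb2'⟩ := EReal.lt_iff_exists_real_btwn.1 h2
  exact amp_osc hpos (EReal.coe_lt_coe_iff.1 hb2) (EReal.coe_lt_coe_iff.1 hb1')
    ((freq_lt hb1).mono fun _ h => h.le) ((freq_gt hb2').mono fun _ h => h.le)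

/-- the limit points of the exponents form a closed interval -/
theorem ex_Cl (hpos : ∀ᶠ k in atTop, 0 < r (2 * k + p)) (S : ∀ β : ℝ, ∃ ρ, Par r p β ρ) :
    Cl (ex r p) = Icc (lo (ex r p)) (hi (ex r p)) := by
  refine Cl_eq fun c h1 h2 => mem_Cl fun ε hε => ?_
  obtain ⟨a1, a2⟩ := amp_osc' hpos h1 h2
  obtain ⟨ρ, S⟩ := S c
  have h3 := attained' S one_pos (t := 1) (by rw [a1]; exact_mod_cast one_pos)
    (by rw [a2]; exact EReal.coe_lt_top 1)
  have h4 : Tendsto (fun k => 2 * 1 * (ρ k + 2 * |c| / NN p k)) atTop (𝓝 0) := by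
    have := (err_tend S).const_mul (2 * 1 : ℝ)
    rwa [mul_zero] at this
  refine ((h3.and_eventually (h4.eventually_le_const (show (0 : ℝ) < 1 / 2 by norm_num))).and_eventually
    ((hpos.and (eventually_ge_atTop 1)).and
      (((logNN_tend p).eventually_ge_atTop (1 / ε)).and
        ((logNN_tend p).eventually_gt_atTop 0)))).mono ?_
  rintro k ⟨⟨b1, b2⟩, ⟨b3, b4⟩, b5, b6⟩
  have hN := NN_pos (p := p) b4
  have hP : 0 < NN p k ^ c := Real.rpow_pos_of_pos hN c
  obtain ⟨c1, c2⟩ := abs_le.1 (b1.trans b2)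
  have hx : 0 < amp r c p k := by unfold amp; positivity
  have e1 : Real.log (amp r c p k) = Real.log (r (2 * k + p)) - c * Real.log (NN p k) := by
    unfold amp
    rw [Real.log_div b3.ne' hP.ne', Real.log_rpow hN]
  have e2 : |Real.log (amp r c p k)| ≤ 1 := by
    rw [abs_le]
    constructor
    · have := Real.one_sub_inv_le_log_of_pos hx
      have h5 : (amp r c p k)⁻¹ ≤ 2 := by
        rw [inv_le_comm₀ hx (by norm_num)]
        linarith
      linarith
    · have := Real.log_le_sub_one_of_pos hx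
      linarith
  have e3 : ex r p k - c = Real.log (amp r c p k) / Real.log (NN p k) := by
    rw [e1]
    unfold ex
    field_simp
  rw [e3, abs_div, abs_of_pos b6, div_le_iff₀ b6]
  refine e2.trans ?_
  have h6 : 1 = ε * (1 / ε) := by field_simp
  rw [h6]
  exact mul_le_mul_of_nonneg_left b5 hε.le

end Run7.h130.PL
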