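import Pool.Agent.Run7.h130.PL.Dbl

/-!
# Sequences with slow variation along each parity
-/

set_option autoImplicit false

namespace Run7.h130.PL

open Filter Topology Set

/-- slow variation along each parity, bounded quotients of consecutive terms -/
structure Sys (r : ℕ → ℝ) (ρ : ℕ → ℝ) (M : ℝ) : Prop where
  pos : ∀ n, 0 < r n
  two : ∀ᶠ n in atTop, |Real.log (r (n + 2)) - Real.log (r n)| ≤ ρ n
  lim : Tendsto ρ atTop (𝓝 0)
  one : ∀ᶠ n in atTop, |Real.log (r (n + 1)) - Real.log (r n)| ≤ M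

/-- the exponent at `n` -/
noncomputable def g (r : ℕ → ℝ) (n : ℕ) : ℝ := Real.log (r n) / Real.log n

variable {r ρ : ℕ → ℝ} {M : ℝ}

theorem par_tend (p : ℕ) : Tendsto (fun k : ℕ => 2 * k + p) atTop atTop :=
  tendsto_atTop_mono (fun k => show k ≤ 2 * k + p by omega) tendsto_id

theorem Sys.par (S : Sys r ρ M) (β : ℝ) (p : ℕ) : Par r p β (fun k => ρ (2 * k + p)) where
  pos := Eventually.of_forall fun k => S.pos _
  lim := S.lim.comp (par_tend p)
  step := fun c _ => by
    filter_upwards [(par_tend p).eventually S.two] with k hk _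
    rw [show 2 * (k + 1) + p = 2 * k + p + 2 by ring]
    exact hk

theorem log_tend : Tendsto (fun n : ℕ => Real.log n) atTop atTop :=
  Real.tendsto_log_atTop.comp tendsto_natCast_atTop_atTop

theorem log_one {n : ℕ} (hn : 1 ≤ n) : |Real.log ((n + 1 : ℕ) : ℝ) - Real.log n| ≤ 1 := by
  have h0 : (1 : ℝ) ≤ n := by exact_mod_cast hn
  have h1 : (n : ℝ) ≤ ((n + 1 : ℕ) : ℝ) := by push_cast; linarith
  have h2 := Real.log_le_log (by linarith) h1
  rw [abs_of_nonneg (by linarith), ← Real.log_div (by push_cast; linarith) (by linarith)]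
  refine (Real.log_le_sub_one_of_pos (by positivity)).trans ?_
  push_cast
  rw [sub_le_iff_le_add, div_le_iff₀ (by linarith)]
  linarith

theorem Sys.par_low (S : Sys r ρ M) {b b' : ℝ} (hb : b < b') (h : ∃ᶠ n in atTop, g r n ≤ b)
    {p : ℕ} (hp : p ≤ 1) : ∃ᶠ k in atTop, ex r p k ≤ b' := by
  have hbig : ∀ᶠ n : ℕ in atTop, M + |b'| ≤ (b' - b) * Real.log n :=
    (log_tend.const_mul_atTop (by linarith)).eventually_ge_atTop _
  have h3 := h.and_eventually (hbig.and (S.one.and (eventually_ge_atTop 2)))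
  rw [frequently_atTop] at h3 ⊢
  intro N
  obtain ⟨n, hn, a1, a2, a3, a4⟩ := h3 (2 * N + 1)
  have hn0 : (1 : ℝ) < n := by exact_mod_cast (show 1 < n by omega)
  have hl : 0 < Real.log n := Real.log_pos hn0
  have b1 : Real.log (r n) ≤ b * Real.log n := by
    unfold g at a1
    rwa [div_le_iff₀ hl] at a1
  have hM : 0 ≤ M := (abs_nonneg _).trans a3
  have hb' := abs_nonneg b'
  by_cases hpar : n % 2 = p
  · refine ⟨n / 2, by omega, ?_⟩
    have e : 2 * (n / 2) + p = n := by omega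
    unfold ex NN
    rw [e, div_le_iff₀ hl]
    nlinarith
  · refine ⟨(n + 1) / 2 - p + (if (n + 1) % 2 = p then p else 0), ?_, ?_⟩
    · split_ifs <;> omega
    · have e : 2 * ((n + 1) / 2 - p + (if (n + 1) % 2 = p then p else 0)) + p = n + 1 := by
        split_ifs <;> omega
      have hl' : 0 < Real.log ((n + 1 : ℕ) : ℝ) := Real.log_pos (by push_cast; linarith)
      unfold ex NN
      rw [e, div_le_iff₀ hl']
      have c1 := (abs_le.1 a3).2
      have c2 := log_one (show 1 ≤ n by omega)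
      have c3 : -|b'| ≤ b' * (Real.log ((n + 1 : ℕ) : ℝ) - Real.log n) := by
        have := neg_abs_le (b' * (Real.log ((n + 1 : ℕ) : ℝ) - Real.log n))
        rw [abs_mul] at this
        nlinarith [abs_nonneg b']
      nlinarith

theorem Sys.par_high (S : Sys r ρ M) {b b' : ℝ} (hb : b' < b) (h : ∃ᶠ n in atTop, b ≤ g r n)
    {p : ℕ} (hp : p ≤ 1) : ∃ᶠ k in atTop, b' ≤ ex r p k := by
  have hbig : ∀ᶠ n : ℕ in atTop, M + |b'| ≤ (b - b') * Real.log n :=
    (log_tend.const_mul_atTop (by linarith)).eventually_ge_atTop _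
  have h3 := h.and_eventually (hbig.and (S.one.and (eventually_ge_atTop 2)))
  rw [frequently_atTop] at h3 ⊢
  intro N
  obtain ⟨n, hn, a1, a2, a3, a4⟩ := h3 (2 * N + 1)
  have hn0 : (1 : ℝ) < n := by exact_mod_cast (show 1 < n by omega)
  have hl : 0 < Real.log n := Real.log_pos hn0
  have b1 : b * Real.log n ≤ Real.log (r n) := by
    unfold g at a1
    rwa [le_div_iff₀ hl] at a1
  have hM : 0 ≤ M := (abs_nonneg _).trans a3
  have hb' := abs_nonneg b'
  by_cases hpar : n % 2 = p
  · refine ⟨n / 2, by omega, ?_⟩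
    have e : 2 * (n / 2) + p = n := by omega
    unfold ex NN
    rw [e, le_div_iff₀ hl]
    nlinarith
  · refine ⟨(n + 1) / 2 - p + (if (n + 1) % 2 = p then p else 0), ?_, ?_⟩
    · split_ifs <;> omega
    · have e : 2 * ((n + 1) / 2 - p + (if (n + 1) % 2 = p then p else 0)) + p = n + 1 := by
        split_ifs <;> omega
      have hl' : 0 < Real.log ((n + 1 : ℕ) : ℝ) := Real.log_pos (by push_cast; linarith)
      unfold ex NN
      rw [e, le_div_iff₀ hl']
      have c1 := (abs_le.1 a3).1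
      have c2 := log_one (show 1 ≤ n by omega)
      have c3 : b' * (Real.log ((n + 1 : ℕ) : ℝ) - Real.log n) ≤ |b'| := by
        have := le_abs_self (b' * (Real.log ((n + 1 : ℕ) : ℝ) - Real.log n))
        rw [abs_mul] at this
        nlinarith [abs_nonneg b']
      nlinarith

theorem Sys.osc (S : Sys r ρ M) {c : ℝ} (h1 : lo (g r) < c) (h2 : (c : EReal) < hi (g r))
    {p : ℕ} (hp : p ≤ 1) : lo (amp r c p) = 0 ∧ hi (amp r c p) = ⊤ := by
  obtain ⟨b, hb1, hb2⟩ := EReal.lt_iff_exists_real_btwn.1 h1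
  obtain ⟨b', hb1', hb2'⟩ := EReal.lt_iff_exists_real_btwn.1 h2
  have hb2 := EReal.coe_lt_coe_iff.1 hb2
  have hb1' := EReal.coe_lt_coe_iff.1 hb1'
  exact amp_osc (b := (b + c) / 2) (b' := (b' + c) / 2) (Eventually.of_forall fun k => S.pos _)
    (by linarith) (by linarith)
    (S.par_low (by linarith) ((freq_lt hb1).mono fun _ h => h.le) hp)
    (S.par_high (by linarith) ((freq_gt hb2').mono fun _ h => h.le) hp)

/-- the amplitudes of both parities have all limit points in `[0, ∞]` -/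
theorem Sys.osc_Cl (S : Sys r ρ M) {c : ℝ} (h1 : lo (g r) < c) (h2 : (c : EReal) < hi (g r))
    {p : ℕ} (hp : p ≤ 1) : Cl (amp r c p) = Icc 0 ⊤ := by
  obtain ⟨a1, a2⟩ := S.osc h1 h2 hp
  rw [amp_Cl (S.par c p), a1, a2]

theorem Sys.g_Cl (S : Sys r ρ M) : Cl (g r) = Icc (lo (g r)) (hi (g r)) := by
  refine Cl_eq fun c h1 h2 => ?_
  obtain ⟨a1, a2⟩ := S.osc h1 h2 (p := 0) (by norm_num)
  obtain ⟨b, hb1, hb2⟩ := EReal.lt_iff_exists_real_btwn.1 h1
  obtain ⟨b', hb1', hb2'⟩ := EReal.lt_iff_exists_real_btwn.1 h2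
  have hb2 := EReal.coe_lt_coe_iff.1 hb2
  have hb1' := EReal.coe_lt_coe_iff.1 hb1'
  have f1 := S.par_low (b' := (b + c) / 2) (by linarith) ((freq_lt hb1).mono fun _ h => h.le)
    (p := 0) (by norm_num)
  have f2 := S.par_high (b' := (b' + c) / 2) (by linarith) ((freq_gt hb2').mono fun _ h => h.le)
    (p := 0) (by norm_num)
  have h3 : (c : EReal) ∈ Cl (ex r 0) := by
    rw [ex_Cl (Eventually.of_forall fun k => S.pos _) (fun β => ⟨_, S.par β 0⟩)]
    constructor
    · exact (lo_le_of_freq f1).trans (EReal.coe_le_coe_iff.2 (by linarith))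
    · exact le_trans (EReal.coe_le_coe_iff.2 (by linarith)) (le_hi_of_freq f2)
  have h4 : MapClusterPt (c : EReal) atTop (fun k => ((ex r 0 k : ℝ) : EReal)) := h3
  exact h4.of_comp (φ := fun k : ℕ => 2 * k + 0) (u := fun n => ((g r n : ℝ) : EReal))
    (par_tend 0)

theorem congr_lo {x x' : ℕ → ℝ} (h : ∀ᶠ n in atTop, x n = x' n) : lo x = lo x' :=
  liminf_congr (h.mono fun n hn => by rw [hn])

theorem congr_hi {x x' : ℕ → ℝ} (h : ∀ᶠ n in atTop, x n = x' n) : hi x = hi x' :=
  limsup_congr (h.mono fun n hn => by rw [hn])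

theorem congr_Cl {x x' : ℕ → ℝ} (h : ∀ᶠ n in atTop, x n = x' n) : Cl x = Cl x' := by
  ext t
  show MapClusterPt t atTop _ ↔ MapClusterPt t atTop _
  unfold MapClusterPt
  rw [Filter.map_congr (h.mono fun n hn => by rw [hn])]

/-- convergence along all numbers and along both parities -/
theorem tendsto_par {x : ℕ → ℝ} {F : Filter ℝ} :
    Tendsto x atTop F ↔ ∀ p : ℕ, p ≤ 1 → Tendsto (fun k => x (2 * k + p)) atTop F := by
  constructor
  · intro h p _
    exact h.comp (par_tend p)
  · intro h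
    intro s hs
    have h0 := (h 0 (by norm_num)).eventually hs
    have h1 := (h 1 le_rfl).eventually hs
    obtain ⟨a, ha⟩ := eventually_atTop.1 h0
    obtain ⟨b, hb⟩ := eventually_atTop.1 h1
    show ∀ᶠ n in atTop, x n ∈ s
    filter_upwards [eventually_ge_atTop (2 * max a b + 2)] with n hn
    have m1 := le_max_left a b
    have m2 := le_max_right a b
    rcases Nat.even_or_odd' n with ⟨k, hk | hk⟩
    · have := ha k (by omega)
      simp only [add_zero] at this
      rwa [hk]
    · have := hb k (by omega)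
      rwa [hk]

/-- **the criterion**: convergence of the amplitudes to `A` -/
theorem Sys.amp_iff (S : Sys r ρ M) (β A : ℝ) :
    Tendsto (fun n : ℕ => r n / (n : ℝ) ^ β) atTop (𝓝 A) ↔ ∀ p : ℕ, p ≤ 1 →
      (A : EReal) ∈ Cl (amp r β p) ∧
        ∃ δ : ℝ, 0 < δ ∧ {t : ℝ | (t : EReal) ∈ Cl (amp r β p) ∧ |t - A| < δ}.Countable := by
  rw [tendsto_par]
  constructor
  · intro h p hp
    exact (tendsto_iff (amp_Cl (S.par β p)) A).1 (h p hp)
  · intro h p hp
    exact (tendsto_iff (amp_Cl (S.par β p)) A).2 (h p hp)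

end Run7.h130.PL
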